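import Pool.Agent.W_MP_0cd67c_ag.Main

/-!
A diagonal linear map `T : ℝ[t]_{n,0} → ℝ[t]_{d,0}` such that `T(g_0)` is real-rooted with at least
`d - 1` roots of the same sign preserves real-rootedness, for all `n, d ≥ 1`.
-/

namespace Pool.Agent.Results.MP_0cd67c_ag.DiagonalPreservers

open Polynomial Pool.Agent.W_MP_0cd67c_ag

theorem result : ∀ n d : ℕ, ∀ hn : 1 ≤ n, 1 ≤ d →
    ∀ T : ZeroSum n →ₗ[ℝ] ZeroSum d, IsDiagonal T →
      OnlyRealRoots (T (gZero n hn) : ℝ[X]) →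
      (SameSignRoots (d - 1) (T (gZero n hn) : ℝ[X]) ∨
        (∀ x ∈ (T (gZero n hn) : ℝ[X]).roots, 0 ≤ x) ∨
        (∀ x ∈ (T (gZero n hn) : ℝ[X]).roots, x ≤ 0)) →
      IsPreserver T :=
  main

end Pool.Agent.Results.MP_0cd67c_ag.DiagonalPreservers
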